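import Pool.Agent.W231.H.Alg

set_option autoImplicit false

/-!
`V ^ 2 - X U ^ 2 = 1 - X ^ k` from factorisations `P Q = 1 - X ^ k`, `k` odd.
-/

namespace Pool.Agent.W231.B

open Polynomial Finset Pool.Agent.W231.H

variable {K : Type*} [Field K] [CharZero K]

omit [CharZero K] in
lemma comp_negX_coeff (P : K[X]) (n : ℕ) : (P.comp (-X)).coeff n = P.coeff n * (-1) ^ n := by
  have h : (-X : K[X]) = C (-1) * X := by simp
  rw [h, comp_C_mul_X_coeff]

lemma even_expand (P : K[X]) (h : P.comp (-X) = P) : expand K 2 (contract 2 P) = P := by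
  ext n
  rw [coeff_expand two_pos]
  split_ifs with hn
  · rw [coeff_contract two_ne_zero, Nat.div_mul_cancel hn]
  · have h1 := congrArg (fun R : K[X] => R.coeff n) h
    simp only [comp_negX_coeff] at h1
    have h2 : Odd n := by
      rw [← Nat.not_even_iff_odd, even_iff_two_dvd]
      exact hn
    rw [h2.neg_one_pow] at h1
    have h3 : (2 : K) * P.coeff n = 0 := by linear_combination -h1
    exact ((mul_eq_zero.1 h3).resolve_left two_ne_zero).symm

omit [CharZero K] in
lemma pA_comp (P Q : K[X]) : (pA P Q).comp (-X) = pA Q P := by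
  unfold pA
  rw [mul_comp, comp_neg_X_comp_neg_X, mul_comm]

omit [CharZero K] in
lemma pV_comp (P Q : K[X]) : (pV P Q).comp (-X) = pV P Q := by
  unfold pV
  rw [mul_comp, add_comp, pA_comp, pA_comp, C_comp, add_comm]

omit [CharZero K] in
lemma pW_comp (P Q : K[X]) : (pW P Q).comp (-X) = -pW P Q := by
  unfold pW
  rw [mul_comp, sub_comp, pA_comp, pA_comp, C_comp]
  ring

/-- the even part as a polynomial in the square -/
noncomputable def qV (P Q : K[X]) : K[X] := contract 2 (pV P Q)

lemma expand_qV (P Q : K[X]) : expand K 2 (qV P Q) = pV P Q := even_expand _ (pV_comp P Q)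

theorem exists_qU {k : ℕ} (hk : Odd k) {P Q : K[X]} (h : P * Q = 1 - X ^ k)
    (hP : P.eval 0 = 1) : ∃ U : K[X], U ≠ 0 ∧ qV P Q ^ 2 - X * U ^ 2 = 1 - X ^ k ∧
      qV P Q ≠ 0 ∧ (X * qV P Q * U).natDegree ≤ k := by
  have hk1 : 1 ≤ k := hk.pos
  have hQ := quot_zero hk1 h hP
  obtain ⟨W, hW, hWk⟩ := pW_dvd hk1 h hP hQ
  have hWc : W.comp (-X) = W := by
    have h1 := pW_comp P Q
    rw [hW, mul_comp, X_comp] at h1
    have h2 : X * (W.comp (-X) - W) = 0 := by linear_combination -h1
    have h3 := (mul_eq_zero.1 h2).resolve_left X_ne_zero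
    exact sub_eq_zero.1 h3
  have hWe := even_expand W hWc
  set U := contract 2 W with hU
  have hVe := expand_qV P Q
  have hrel : qV P Q ^ 2 - X * U ^ 2 = 1 - X ^ k := by
    apply expand_injective (R := K) two_pos
    have h1 := pV_sq hk h
    rw [hW, ← hWe, ← hVe] at h1
    simp only [map_sub, map_mul, map_pow, map_one, expand_X]
    rw [← pow_mul]
    linear_combination h1
  have hdV : (qV P Q).natDegree * 2 ≤ k - 1 := by
    rw [← natDegree_expand, hVe]
    exact pV_natDegree hk h
  have hdU : U.natDegree * 2 ≤ k - 1 := by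
    rw [← natDegree_expand, hWe]
    exact hWk
  have hd1 : (1 - X ^ k : K[X]).natDegree = k := by
    have : (1 - X ^ k : K[X]) = -(X ^ k - 1) := by ring
    rw [this, natDegree_neg]
    exact natDegree_X_pow_sub_C (n := k) (r := (1 : K))
  refine ⟨U, ?_, hrel, ?_, ?_⟩
  · intro h0
    rw [h0] at hrel
    have h1 : (qV P Q ^ 2).natDegree = k := by
      rw [← hd1, ← hrel]
      congr 1
      ring
    have h2 := natDegree_pow_le (p := qV P Q) (n := 2)
    omega
  · intro h0
    have h1 := pV_zero hP hQ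
    rw [← hVe, h0, map_zero, eval_zero] at h1
    exact zero_ne_one h1
  · refine natDegree_mul_le.trans ?_
    have h1 := natDegree_mul_le (p := (X : K[X])) (q := qV P Q)
    rw [natDegree_X] at h1
    omega

lemma qV_zero {k : ℕ} (hk : 1 ≤ k) {P Q : K[X]} (h : P * Q = 1 - X ^ k)
    (hP : P.eval 0 = 1) : (qV P Q).eval 0 = 1 := by
  have h1 := pV_zero hP (quot_zero hk h hP)
  rw [← expand_qV, expand_eval] at h1
  simpa using h1

/-- the number of the curves -/
lemma card_le' [DecidableEq K[X]] {k : ℕ} (hk : Odd k) (Ps : Finset K[X])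
    (hPs : ∀ P ∈ Ps, P.eval 0 = 1 ∧ P ∣ 1 - X ^ k) :
    Ps.card ≤ 2 * (Ps.image fun P => qV P ((1 - X ^ k) / P) ^ 2).card := by
  have h1 := card_le hk Ps hPs
  have h2 : (Ps.image fun P => pV P ((1 - X ^ k) / P) ^ 2) =
      (Ps.image fun P => qV P ((1 - X ^ k) / P) ^ 2).image (expand K 2) := by
    rw [Finset.image_image]
    refine Finset.image_congr fun P _ => ?_
    simp only [Function.comp_apply, map_pow, expand_qV]
  rw [h2, Finset.card_image_of_injective _ (expand_injective two_pos)] at h1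
  exact h1

end Pool.Agent.W231.B
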