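import Pool.Agent.W231.R.Disc

set_option autoImplicit false

/-!
The number field generated by a root of `f = u`, for a fixed polynomial `f` over a number field and
a large integer `u`, and its discriminant.
-/

namespace Pool.Agent.W231.B

open NumberField Module Finset Polynomial Pool.Agent.W231.R

/-- common denominators -/
lemma exists_den {L0 : Type*} [Field L0] [NumberField L0] (s : Finset L0) :
    ∃ N : ℕ, N ≠ 0 ∧ ∀ a ∈ s, IsIntegral ℤ ((N : L0) * a) := by
  obtain ⟨y, hy, h⟩ := exists_integral_multiples ℤ ℚ s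
  refine ⟨y.natAbs, Int.natAbs_ne_zero.2 hy, fun a ha => ?_⟩
  have h1 := h a ha
  rw [zsmul_eq_mul] at h1
  have h3 : ((y.natAbs : ℕ) : L0) = (((y.natAbs : ℕ) : ℤ) : L0) := by simp
  rcases Int.natAbs_eq y with h2 | h2
  · rw [h3, ← h2]
    exact h1
  · have h4 : (((y.natAbs : ℕ) : ℤ) : L0) * a = -((y : L0) * a) := by
      have h5 : ((y.natAbs : ℕ) : ℤ) = -y := by omega
      rw [h5]
      push_cast
      ring
    rw [h3, h4]
    exact h1.neg

lemma mul_root_integral {L0 L : Type*} [Field L0] [NumberField L0] [Field L] [Algebra L0 L]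
    (f : L0[X]) (N : ℕ) (hN : ∀ j, IsIntegral ℤ ((N : L0) * f.coeff j)) {z : L}
    (hz : aeval z f = 0) : IsIntegral ℤ (algebraMap L0 L (N * f.leadingCoeff) * z) := by
  set p' : L0[X] := C (N : L0) * f with hp'
  have hl : p' ∈ lifts (algebraMap (𝓞 L0) L0) := by
    rw [lifts_iff_coeff_lifts]
    intro n
    obtain ⟨y, hy⟩ := (IsIntegralClosure.isIntegral_iff (A := 𝓞 L0)).1 (hN n)
    exact ⟨y, by rw [hy, hp', coeff_C_mul]⟩
  obtain ⟨q, hq⟩ := (mem_lifts _).1 hl
  have hqz : aeval z q = 0 := by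
    rw [← aeval_map_algebraMap L0, hq, hp', map_mul, hz, mul_zero]
  have h1 := isIntegral_leadingCoeff_smul q z hqz
  have h2 : q.leadingCoeff • z = algebraMap L0 L (N * f.leadingCoeff) * z := by
    rw [Algebra.smul_def, IsScalarTower.algebraMap_apply (𝓞 L0) L0 L,
      ← leadingCoeff_map_of_injective (RingOfIntegers.coe_injective), hq, hp', leadingCoeff_mul,
      leadingCoeff_C]
  rw [h2] at h1
  exact isIntegral_trans _ h1

/-- sizes of the roots of `f = u` -/
lemma root_size {F : Type*} [NormedField F] (f : F[X]) (hf : 1 ≤ f.natDegree) {B : ℝ}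
    (hB : ∑ j ∈ range (f.natDegree + 1), ‖f.coeff j‖ ≤ B) (hB1 : 1 ≤ B)
    (hc : 1 ≤ B * ‖f.leadingCoeff‖) {u : ℝ} (hu : 1 ≤ u) {z : F} (hz : ‖f.eval z‖ = u) :
    ‖z‖ ≤ 4 * B ^ 2 * u ^ (1 / (f.natDegree : ℝ)) ∧ u ≤ B * max 1 ‖z‖ ^ f.natDegree := by
  set D := f.natDegree with hD
  have hD0 : (0 : ℝ) < D := by exact_mod_cast (by omega : 0 < D)
  have hev := eval_eq_sum_range (p := f) z
  rw [← hD] at hev
  constructor
  · by_contra hcon
    push Not at hcon
    set w : ℝ := u ^ (1 / (D : ℝ)) with hw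
    have hw1 : 1 ≤ w := Real.one_le_rpow hu (by positivity)
    have hwD : w ^ D = u := by
      rw [hw, ← Real.rpow_natCast, ← Real.rpow_mul (by linarith), one_div,
        inv_mul_cancel₀ hD0.ne', Real.rpow_one]
    have hz1 : 4 * B ^ 2 ≤ ‖z‖ := by nlinarith
    have hz2 : 1 ≤ ‖z‖ := by nlinarith
    have hK : (1 : ℝ) ≤ 4 * B ^ 2 := by nlinarith
    -- `u` is small
    have h1 : u * (4 * B ^ 2) ≤ ‖z‖ ^ D := by
      calc u * (4 * B ^ 2) ≤ u * (4 * B ^ 2) ^ D :=
            mul_le_mul_of_nonneg_left (le_self_pow₀ hK (by omega)) (by linarith)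
        _ = (4 * B ^ 2 * w) ^ D := by rw [mul_pow _ w, hwD]; ring
        _ ≤ ‖z‖ ^ D := pow_le_pow_left₀ (by positivity) hcon.le _
    have h2 : ‖∑ j ∈ range D, f.coeff j * z ^ j‖ ≤ B * ‖z‖ ^ (D - 1) := by
      refine (norm_sum_le _ _).trans ?_
      calc ∑ j ∈ range D, ‖f.coeff j * z ^ j‖ ≤ ∑ j ∈ range D, ‖f.coeff j‖ * ‖z‖ ^ (D - 1) := by
            refine Finset.sum_le_sum fun j hj => ?_
            rw [norm_mul, norm_pow]
            refine mul_le_mul_of_nonneg_left (pow_le_pow_right₀ hz2 ?_) (norm_nonneg _)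
            rw [mem_range] at hj
            omega
        _ = (∑ j ∈ range D, ‖f.coeff j‖) * ‖z‖ ^ (D - 1) := by rw [Finset.sum_mul]
        _ ≤ B * ‖z‖ ^ (D - 1) := by
            refine mul_le_mul_of_nonneg_right ?_ (by positivity)
            rw [Finset.sum_range_succ] at hB
            have := norm_nonneg (f.coeff D)
            linarith
    have h3 : ‖z‖ ^ D = ‖z‖ * ‖z‖ ^ (D - 1) := by
      rw [← pow_succ', Nat.sub_add_cancel hf]
    rw [Finset.sum_range_succ] at hev
    have h4 : f.coeff D * z ^ D = f.eval z - ∑ j ∈ range D, f.coeff j * z ^ j := by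
      rw [hev]; ring
    have h5 : ‖f.leadingCoeff‖ * ‖z‖ ^ D ≤ u + B * ‖z‖ ^ (D - 1) := by
      have h6 := congrArg norm h4
      rw [norm_mul, norm_pow] at h6
      rw [leadingCoeff, ← hD, h6]
      refine (norm_sub_le _ _).trans ?_
      rw [hz]
      linarith
    have hpos : 0 < ‖z‖ ^ (D - 1) := by positivity
    -- multiply by `B`
    have h6 : ‖z‖ ^ D ≤ B * u + B ^ 2 * ‖z‖ ^ (D - 1) := by
      calc ‖z‖ ^ D ≤ B * ‖f.leadingCoeff‖ * ‖z‖ ^ D := le_mul_of_one_le_left (by positivity) hc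
        _ = B * (‖f.leadingCoeff‖ * ‖z‖ ^ D) := by ring
        _ ≤ B * (u + B * ‖z‖ ^ (D - 1)) := mul_le_mul_of_nonneg_left h5 (by linarith)
        _ = _ := by ring
    have h7 : B * u ≤ ‖z‖ ^ D / 4 := by
      have : B * u ≤ B ^ 2 * u := by
        have : 0 ≤ (B ^ 2 - B) * u := mul_nonneg (by nlinarith) (by linarith)
        linarith
      linarith
    have h8 : B ^ 2 * ‖z‖ ^ (D - 1) ≤ ‖z‖ ^ D / 4 := by
      rw [h3]
      have := mul_le_mul_of_nonneg_right hz1 hpos.le
      linarith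
    have h9 : 0 < ‖z‖ ^ D := by positivity
    linarith
  · rw [← hz, hev]
    refine (norm_sum_le _ _).trans ?_
    calc ∑ j ∈ range (D + 1), ‖f.coeff j * z ^ j‖
        ≤ ∑ j ∈ range (D + 1), ‖f.coeff j‖ * max 1 ‖z‖ ^ D := by
          refine Finset.sum_le_sum fun j hj => ?_
          rw [norm_mul, norm_pow]
          refine mul_le_mul_of_nonneg_left ?_ (norm_nonneg _)
          calc ‖z‖ ^ j ≤ max 1 ‖z‖ ^ j := pow_le_pow_left₀ (norm_nonneg _) (le_max_right _ _) _
            _ ≤ max 1 ‖z‖ ^ D := pow_le_pow_right₀ (le_max_left _ _) (by rw [mem_range] at hj; omega)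
      _ = (∑ j ∈ range (D + 1), ‖f.coeff j‖) * max 1 ‖z‖ ^ D := by rw [Finset.sum_mul]
      _ ≤ B * max 1 ‖z‖ ^ D := mul_le_mul_of_nonneg_right hB (by positivity)

/-- the constant of a polynomial -/
lemma exists_B (L0 : Type) [Field L0] [NumberField L0] (f : L0[X]) (hf : f ≠ 0)
    {ι : Type*} [Fintype ι] (b : ι → L0) :
    ∃ B : ℝ, 1 ≤ B ∧ ∀ τ : L0 →+* ℂ, ∑ j ∈ range (f.natDegree + 1), ‖τ (f.coeff j)‖ ≤ B ∧
      1 ≤ B * ‖τ f.leadingCoeff‖ ∧ ∀ i, ‖τ (b i)‖ ≤ B := by
  classical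
  set g : (L0 →+* ℂ) → ℝ := fun τ => ∑ j ∈ range (f.natDegree + 1), ‖τ (f.coeff j)‖ +
    ‖τ f.leadingCoeff‖⁻¹ + ∑ i, ‖τ (b i)‖ with hg
  have hg0 : ∀ τ, 0 ≤ g τ := fun τ => by
    simp only [hg]
    positivity
  refine ⟨1 + ∑ τ, g τ, ?_, fun τ => ?_⟩
  · have := Finset.sum_nonneg fun τ (_ : τ ∈ (univ : Finset (L0 →+* ℂ))) => hg0 τ
    linarith
  · have h1 : g τ ≤ ∑ τ, g τ := Finset.single_le_sum (fun τ _ => hg0 τ) (Finset.mem_univ τ)
    have a1 : 0 ≤ ∑ j ∈ range (f.natDegree + 1), ‖τ (f.coeff j)‖ :=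
      Finset.sum_nonneg fun j _ => norm_nonneg _
    have a2 : 0 ≤ ‖τ f.leadingCoeff‖⁻¹ := by positivity
    have a3 : 0 ≤ ∑ i, ‖τ (b i)‖ := Finset.sum_nonneg fun j _ => norm_nonneg _
    have hc : 0 < ‖τ f.leadingCoeff‖ := norm_pos_iff.2 ((_root_.map_ne_zero _).2 (leadingCoeff_ne_zero.2 hf))
    refine ⟨by simp only [hg] at h1; linarith, ?_, fun i => ?_⟩
    · have h2 : ‖τ f.leadingCoeff‖⁻¹ ≤ 1 + ∑ τ, g τ := by simp only [hg] at h1; linarith
      calc (1 : ℝ) = ‖τ f.leadingCoeff‖⁻¹ * ‖τ f.leadingCoeff‖ := (inv_mul_cancel₀ hc.ne').symm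
        _ ≤ _ := mul_le_mul_of_nonneg_right h2 hc.le
    · have h3 : ‖τ (b i)‖ ≤ ∑ i, ‖τ (b i)‖ :=
        Finset.single_le_sum (f := fun i => ‖τ (b i)‖) (fun i _ => norm_nonneg _) (Finset.mem_univ i)
      simp only [hg] at h1
      linarith

theorem exists_fieldB (L0 : Type) [Field L0] [NumberField L0] (f : L0[X]) (hf : 1 ≤ f.natDegree) :
    ∃ C : ℝ, ∀ u : ℕ, 1 ≤ u →
      ∃ (L : Type) (_ : Field L) (_ : NumberField L) (_ : Algebra L0 L) (t : L),
        aeval t f = u ∧ finrank ℚ L ≤ finrank ℚ L0 * f.natDegree ∧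
        Real.log |((discr L : ℤ) : ℝ)| ≤ finrank ℚ L * (C +
          (f.natDegree - 1) * (Real.log u / f.natDegree)) ∧
        ∀ w : InfinitePlace L, Real.log u ≤ C + f.natDegree * Real.log (max 1 (w t)) := by
  classical
  have hf0 : f ≠ 0 := by
    rintro rfl
    simp at hf
  set D := f.natDegree with hD
  have hD0 : (0 : ℝ) < D := by exact_mod_cast (by omega : 0 < D)
  obtain ⟨N, hN0, hN⟩ := exists_den (f.support.image f.coeff)
  have hN' : ∀ j, IsIntegral ℤ ((N : L0) * f.coeff j) := by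
    intro j
    by_cases h : f.coeff j = 0
    · rw [h, mul_zero]; exact isIntegral_zero
    · exact hN _ (Finset.mem_image.2 ⟨j, mem_support_iff.2 h, rfl⟩)
  set b0 := integralBasis L0 with hb0
  obtain ⟨B, hB1, hB⟩ := exists_B L0 f hf0 b0
  set a : L0 := N * f.leadingCoeff with ha
  have ha0 : a ≠ 0 := mul_ne_zero (Nat.cast_ne_zero.2 hN0) (leadingCoeff_ne_zero.2 hf0)
  set M0 : ℝ := N * B * (4 * B ^ 2) with hM0
  have hNR : (1 : ℝ) ≤ N := by exact_mod_cast Nat.one_le_iff_ne_zero.2 hN0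
  have hM01 : 1 ≤ M0 := by
    have h1 : (1 : ℝ) ≤ N * B := by nlinarith
    have h2 : (1 : ℝ) ≤ 4 * B ^ 2 := by nlinarith
    rw [hM0]
    nlinarith
  refine ⟨2 * Real.log (finrank ℚ L0 * D) + 2 * Real.log B + D * Real.log M0, fun u hu => ?_⟩
  have huR : (1 : ℝ) ≤ u := by exact_mod_cast hu
  set g : L0[X] := f - C (u : L0) with hg
  have hgdeg : g.natDegree = D := natDegree_sub_C
  have hg0 : g ≠ 0 := by
    intro h
    rw [h, natDegree_zero] at hgdeg
    omega
  have hglc : g.leadingCoeff = f.leadingCoeff := by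
    rw [leadingCoeff, leadingCoeff, hgdeg, hg, coeff_sub, coeff_C, if_neg (by omega), sub_zero]
  obtain ⟨z, hz⟩ := IsAlgClosed.exists_aeval_eq_zero (AlgebraicClosure L0) g (by
    intro h
    rw [degree_eq_natDegree hg0, hgdeg] at h
    have : D = 0 := by exact_mod_cast h
    omega)
  set y : AlgebraicClosure L0 := algebraMap L0 _ a * z with hy
  have hyi : IsIntegral ℤ y := by
    have h1 := mul_root_integral g N (fun j => by
      rw [hg, coeff_sub, mul_sub]
      refine (hN' j).sub ?_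
      rw [coeff_C]
      split_ifs
      · have h2 : IsIntegral ℤ (algebraMap ℤ L0 ((N * u : ℕ) : ℤ)) := isIntegral_algebraMap
        have h3 : algebraMap ℤ L0 ((N * u : ℕ) : ℤ) = (N : L0) * u := by simp
        rw [h3] at h2
        exact h2
      · rw [mul_zero]; exact isIntegral_zero) hz
    rwa [hglc] at h1
  have hint0 : IsIntegral L0 y := Algebra.IsIntegral.isIntegral y
  set L := IntermediateField.adjoin L0 {y} with hL
  have : FiniteDimensional L0 L := IntermediateField.adjoin.finiteDimensional hint0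
  have : CharZero L := charZero_of_injective_algebraMap (algebraMap L0 L).injective
  have : FiniteDimensional ℚ L := FiniteDimensional.trans ℚ L0 L
  have hnf : NumberField L := {}
  set y' : L := IntermediateField.AdjoinSimple.gen L0 y with hy'
  have hy'c : algebraMap L (AlgebraicClosure L0) y' = y :=
    IntermediateField.AdjoinSimple.algebraMap_gen L0 y
  have hamap : algebraMap L0 L a ≠ 0 := (_root_.map_ne_zero _).2 ha0
  set t : L := (algebraMap L0 L a)⁻¹ * y' with ht
  have htc : algebraMap L (AlgebraicClosure L0) t = z := by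
    rw [ht, map_mul, map_inv₀, hy'c, hy, ← IsScalarTower.algebraMap_apply L0 L (AlgebraicClosure L0),
      ← mul_assoc, inv_mul_cancel₀ ((_root_.map_ne_zero _).2 ha0), one_mul]
  have hyt : y' = algebraMap L0 L a * t := by
    rw [ht, ← mul_assoc, mul_inv_cancel₀ hamap, one_mul]
  have htf : aeval t f = u := by
    have h1 : aeval t g = 0 := by
      apply (algebraMap L (AlgebraicClosure L0)).injective
      rw [← aeval_algebraMap_apply, map_zero, htc]
      exact hz
    rw [hg, map_sub, aeval_C, map_natCast, sub_eq_zero] at h1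
    exact h1
  have hy'i : IsIntegral ℤ y' := by
    have h1 : IsIntegral ℤ (algebraMap L (AlgebraicClosure L0) y') := by rw [hy'c]; exact hyi
    exact (isIntegral_algebraMap_iff (algebraMap L (AlgebraicClosure L0)).injective).1 h1
  -- the basis
  set pb1 := IntermediateField.adjoin.powerBasis hint0 with hpb1
  have hdim1 : pb1.dim ≤ D := by
    rw [hpb1, IntermediateField.adjoin.powerBasis_dim]
    have h1 : aeval y (g.comp (C a⁻¹ * X)) = 0 := by
      rw [aeval_comp]
      have h2 : aeval y (C a⁻¹ * X : L0[X]) = z := by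
        rw [map_mul, aeval_C, aeval_X, hy, map_inv₀, ← mul_assoc,
          inv_mul_cancel₀ ((_root_.map_ne_zero _).2 ha0), one_mul]
      rw [h2]
      exact hz
    have h3 : (C a⁻¹ * X : L0[X]).natDegree = 1 := natDegree_C_mul_X _ (inv_ne_zero ha0)
    have h2 : (g.comp (C a⁻¹ * X)).natDegree = D := by
      rw [natDegree_comp, h3, mul_one, hgdeg]
    have h4 : g.comp (C a⁻¹ * X) ≠ 0 := by
      intro h
      rw [h, natDegree_zero] at h2
      omega
    rw [← h2]
    exact natDegree_le_of_dvd (minpoly.dvd L0 y h1) h4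
  have hgen1 : pb1.gen = y' := rfl
  set b := b0.smulTower pb1.basis with hb
  have hbv : ∀ p, b p = algebraMap L0 L (b0 p.1) * y' ^ (p.2 : ℕ) := by
    intro p
    rw [hb, Basis.smulTower_apply, pb1.basis_eq_pow, hgen1, Algebra.smul_def]
  set d0 := finrank ℚ L0 with hd0
  have hcard0 : Fintype.card (Free.ChooseBasisIndex ℤ (𝓞 L0)) = d0 := (finrank_eq_card_basis b0).symm
  have hfin : finrank ℚ L = d0 * pb1.dim := by
    rw [finrank_eq_card_basis b, Fintype.card_prod, Fintype.card_fin, hcard0]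
  set M : ℝ := M0 * (u : ℝ) ^ (1 / (D : ℝ)) with hM
  have hM1 : 1 ≤ M := by
    have := Real.one_le_rpow huR (by positivity : 0 ≤ 1 / (D : ℝ))
    rw [hM]
    nlinarith
  have hMlog : Real.log M = Real.log M0 + Real.log u / D := by
    rw [hM, Real.log_mul (by positivity) (by positivity), Real.log_rpow (by linarith)]
    ring
  have hroot : ∀ σ : L →+* ℂ, ‖σ t‖ ≤ 4 * B ^ 2 * (u : ℝ) ^ (1 / (D : ℝ)) ∧
      (u : ℝ) ≤ B * max 1 ‖σ t‖ ^ D := by
    intro σ
    set τ : L0 →+* ℂ := σ.comp (algebraMap L0 L) with hτ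
    obtain ⟨k1, k2, k3⟩ := hB τ
    have hmd : (f.map τ).natDegree = D := natDegree_map_eq_of_injective τ.injective f
    have h1 := root_size (f.map τ) (by rw [hmd]; exact hf) (B := B) (by
      rw [hmd]
      simpa using k1) hB1 (by
      rw [leadingCoeff_map_of_injective τ.injective]
      exact k2) huR (z := σ t) (by
      have h2 : (f.map τ).eval (σ t) = σ (aeval t f) := by
        rw [eval_map, aeval_def, hom_eval₂]
      rw [h2, htf, map_natCast]
      simp)
    rwa [hmd] at h1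
  have hσ : ∀ σ : L →+* ℂ, ‖σ y'‖ ≤ M := by
    intro σ
    set τ : L0 →+* ℂ := σ.comp (algebraMap L0 L) with hτ
    obtain ⟨k1, k2, k3⟩ := hB τ
    have h1 := (hroot σ).1
    have h2 : ‖τ a‖ ≤ N * B := by
      rw [ha, map_mul, norm_mul, map_natCast]
      have h3 : ‖((N : ℕ) : ℂ)‖ = N := by simp
      rw [h3]
      refine mul_le_mul_of_nonneg_left ?_ (by positivity)
      have h4 : ‖τ (f.coeff D)‖ ≤ ∑ j ∈ range (D + 1), ‖τ (f.coeff j)‖ :=
        Finset.single_le_sum (f := fun j => ‖τ (f.coeff j)‖) (fun j _ => norm_nonneg _)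
          (Finset.mem_range.2 (Nat.lt_succ_self D))
      exact h4.trans k1
    rw [hyt, map_mul, norm_mul]
    have h5 : σ (algebraMap L0 L a) = τ a := rfl
    rw [h5]
    calc ‖τ a‖ * ‖σ t‖ ≤ (N * B) * (4 * B ^ 2 * (u : ℝ) ^ (1 / (D : ℝ))) :=
          mul_le_mul h2 h1 (norm_nonneg _) (by positivity)
      _ = M := by rw [hM, hM0]; ring
  have hb0i : ∀ i, IsIntegral ℤ (b0 i) := fun i => by
    rw [hb0, integralBasis_apply]
    exact RingOfIntegers.isIntegral_coe _
  have hdisc := abs_discr_le b (fun p => by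
    rw [hbv]
    refine IsIntegral.mul ?_ (hy'i.pow _)
    exact (hb0i p.1).map (IsScalarTower.toAlgHom ℤ L0 L)) (fun p => B * M ^ (p.2 : ℕ)) (by
    intro p σ
    rw [hbv, map_mul, norm_mul, map_pow, norm_pow]
    refine mul_le_mul ?_ (pow_le_pow_left₀ (norm_nonneg _) (hσ σ) _) (by positivity) (by linarith)
    exact (hB (σ.comp (algebraMap L0 L))).2.2 p.1)
  have hN1 : 1 ≤ finrank ℚ L := Nat.succ_le_of_lt finrank_pos
  have hfinle : finrank ℚ L ≤ d0 * D := by
    rw [hfin]
    exact Nat.mul_le_mul_left _ hdim1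
  have hd01 : 1 ≤ d0 := Nat.succ_le_of_lt finrank_pos
  refine ⟨L, inferInstance, hnf, inferInstance, t, htf, hfinle, ?_, fun w => ?_⟩
  · set n := finrank ℚ L with hn
    have hcard : Fintype.card (Free.ChooseBasisIndex ℤ (𝓞 L0) × Fin pb1.dim) = n := by
      rw [hfin, Fintype.card_prod, Fintype.card_fin, hcard0]
    rw [hcard] at hdisc
    have hpos : 0 < |((discr L : ℤ) : ℝ)| := abs_pos.2 (by exact_mod_cast discr_ne_zero L)
    have h1 := Real.log_le_log hpos hdisc
    have hprod0 : 0 < ∏ p : Free.ChooseBasisIndex ℤ (𝓞 L0) × Fin pb1.dim, B * M ^ (p.2 : ℕ) :=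
      Finset.prod_pos fun p _ => by positivity
    rw [Real.log_pow, Real.log_mul (by positivity) hprod0.ne',
      Real.log_prod (fun p _ => (by positivity : B * M ^ (p.2 : ℕ) ≠ 0))] at h1
    have e1 : ∀ p : Free.ChooseBasisIndex ℤ (𝓞 L0) × Fin pb1.dim,
        Real.log (B * M ^ (p.2 : ℕ)) = Real.log B + (p.2 : ℕ) * Real.log M := by
      intro p
      rw [Real.log_mul (by positivity) (by positivity), Real.log_pow]
    simp only [e1] at h1
    rw [Finset.sum_add_distrib, Finset.sum_const, Finset.card_univ, hcard, nsmul_eq_mul] at h1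
    have h2 : ∑ p : Free.ChooseBasisIndex ℤ (𝓞 L0) × Fin pb1.dim, ((p.2 : ℕ) : ℝ) * Real.log M =
        d0 * (∑ j ∈ Finset.range pb1.dim, (j : ℝ)) * Real.log M := by
      rw [Fintype.sum_prod_type]
      simp only [Finset.sum_const, Finset.card_univ, hcard0, nsmul_eq_mul]
      rw [← Fin.sum_univ_eq_sum_range (fun j => (j : ℝ)), ← Finset.sum_mul]
      ring
    have h3 : (∑ j ∈ Finset.range pb1.dim, (j : ℝ)) * 2 ≤ pb1.dim * (D - 1) := by
      have h4 := Finset.sum_range_id_mul_two pb1.dim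
      have h5 : pb1.dim * (pb1.dim - 1) ≤ pb1.dim * (D - 1) := Nat.mul_le_mul_left _ (by omega)
      rw [← h4] at h5
      have h6 : (((∑ j ∈ Finset.range pb1.dim, j) * 2 : ℕ) : ℝ) ≤
          ((pb1.dim * (D - 1) : ℕ) : ℝ) := by exact_mod_cast h5
      push_cast at h6
      rw [Nat.cast_sub hf] at h6
      push_cast at h6
      exact h6
    have h7 : Real.log ((n.factorial : ℕ) : ℝ) ≤ n * Real.log n := by
      rw [← Real.log_pow]
      refine Real.log_le_log (by positivity) ?_
      exact_mod_cast Nat.factorial_le_pow n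
    have h7' : Real.log n ≤ Real.log (d0 * D) := by
      refine Real.log_le_log (by exact_mod_cast hN1) ?_
      exact_mod_cast hfinle
    have hnR : (n : ℝ) = d0 * pb1.dim := by exact_mod_cast hfin
    have hlM : 0 ≤ Real.log M := Real.log_nonneg hM1
    have hlM0 : 0 ≤ Real.log M0 := Real.log_nonneg hM01
    rw [h2] at h1
    push_cast at h1
    have h8 : (d0 : ℝ) * ((∑ j ∈ Finset.range pb1.dim, (j : ℝ)) * 2) * Real.log M ≤
        d0 * (pb1.dim * (D - 1)) * Real.log M := by
      gcongr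
    have h9 : (d0 : ℝ) * (pb1.dim * (D - 1)) * Real.log M = n * ((D - 1) * Real.log M) := by
      rw [hnR]; ring
    have hn0 : (0 : ℝ) ≤ n := Nat.cast_nonneg n
    have h10 : (n : ℝ) * Real.log n ≤ n * Real.log (d0 * D) := mul_le_mul_of_nonneg_left h7' hn0
    have h11 : (n : ℝ) * ((D - 1) * Real.log M) ≤
        n * (D * Real.log M0 + (D - 1) * (Real.log u / D)) := by
      refine mul_le_mul_of_nonneg_left ?_ hn0
      rw [hMlog]
      linarith
    have h12 : (n : ℝ) * (2 * Real.log (d0 * D) + 2 * Real.log B + D * Real.log M0 +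
        (D - 1) * (Real.log u / D)) = 2 * (n * Real.log (d0 * D)) + 2 * (n * Real.log B) +
        n * (D * Real.log M0 + (D - 1) * (Real.log u / D)) := by ring
    rw [h12]
    linarith
  · have h1 := (hroot w.embedding).2
    rw [InfinitePlace.norm_embedding_eq] at h1
    have hm : (1 : ℝ) ≤ max 1 (w t) := le_max_left _ _
    have h2 := Real.log_le_log (by linarith) h1
    rw [Real.log_mul (by positivity) (by positivity), Real.log_pow] at h2
    have h3 : 0 ≤ Real.log (d0 * D : ℝ) := Real.log_nonneg (by exact_mod_cast hN1.trans hfinle)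
    have h4 : 0 ≤ Real.log B := Real.log_nonneg hB1
    have h5 : 0 ≤ Real.log M0 := Real.log_nonneg hM01
    have h6 : 0 ≤ D * Real.log M0 := by positivity
    linarith

end Pool.Agent.W231.B
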