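import Pool.Agent.W231.B.Prox
import Pool.Agent.W231.B.Field
import Pool.Agent.W231.B.Even
import Pool.Agent.W231.H.Main
import Pool.Agent.W231.R.Count
import Pool.Agent.W231.R.Main

set_option autoImplicit false

/-!
Points of bounded degree, divisors containing `n + 2` hyperplanes: degree of the exceptional set.
-/

namespace Pool.Agent.W231.B

open NumberField IsDedekindDomain Height Finset Module Polynomial Pool.Agent.W231.V
  Pool.Agent.W231.M Pool.Agent.W231.H Pool.Agent.W231.R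

/-- for large `u` the solutions of `f = u` avoid the roots of a given polynomial -/
lemma avoid' {L0 : Type} [Field L0] [NumberField L0] (f R : L0[X]) (hR : R ≠ 0) :
    ∃ u0 : ℕ, ∀ u : ℕ, u0 ≤ u → ∀ (L : Type) [Field L] [NumberField L]
      [Algebra L0 L] (t : L), aeval t f = (u : L) → aeval t R ≠ 0 := by
  classical
  set Ω := AlgebraicClosure L0 with hΩ
  set φ := algebraMap L0 Ω with hφ
  have hR' : R.map φ ≠ 0 := (Polynomial.map_ne_zero_iff φ.injective).2 hR
  set B : Finset Ω := (R.map φ).roots.toFinset.image fun y => (f.map φ).eval y with hB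
  have hfin : {u : ℕ | (u : Ω) ∈ B}.Finite :=
    Set.Finite.preimage (fun _ _ _ _ h => Nat.cast_injective h) B.finite_toSet
  obtain ⟨u0, hu0⟩ := hfin.bddAbove
  refine ⟨u0 + 1, fun u hu L _ _ _ t ht h0 => ?_⟩
  have hmem : u ∈ {u : ℕ | (u : Ω) ∈ B} := by
    have : FiniteDimensional L0 L := Module.Finite.of_restrictScalars_finite ℚ L0 L
    let j : L →ₐ[L0] Ω := IsAlgClosed.lift
    change (u : Ω) ∈ B
    rw [hB, Finset.mem_image]
    refine ⟨j t, ?_, ?_⟩
    · rw [Multiset.mem_toFinset, Polynomial.mem_roots hR', Polynomial.IsRoot.def,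
        Polynomial.eval_map, ← Polynomial.aeval_def, Polynomial.aeval_algHom_apply, h0, map_zero]
    · rw [Polynomial.eval_map, ← Polynomial.aeval_def, Polynomial.aeval_algHom_apply, ht,
        map_natCast]
  have := hu0 hmem
  omega

theorem main7 {n : ℕ} (hn : 2 ≤ n) (H : Fin (n + 2) → Fin (n + 1) → ℚ)
    (hgp : ∀ I : Finset (Fin (n + 2)), I.card = n + 1 → LinearIndependent ℚ (fun i : I => H i))
    (E : MvPolynomial (Fin (n + 1)) ℚ) {e : ℕ} (hE : E.IsHomogeneous e) (hE0 : E ≠ 0)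
    (G : MvPolynomial (Fin (n + 1)) ℚ) (hG : G ≠ 0) {δ : ℕ} (hGδ : G.IsHomogeneous δ)
    {L0 : Type} [Field L0] [NumberField L0] {k : ℕ} (hk : Odd k) {ε : ℝ} (hεk : ε * k < 1)
    (Ps : Finset L0[X]) (hPs : ∀ P ∈ Ps, P.eval 0 = 1 ∧ P ∣ 1 - X ^ k)
    (hlt : 2 * (δ + e) < Ps.card) (p : ℕ) (hp : p.Prime) :
    ∃ N : ℕ, N ≠ 0 ∧ ∀ C : ℝ, ∃ (L : Type) (_ : Field L) (_ : NumberField L)
      (x : Fin (n + 1) → L), finrank ℚ L ≤ k * finrank ℚ L0 ∧ x ≠ 0 ∧
      (∀ i, ∑ j, algebraMap ℚ L (H i j) * x j ≠ 0) ∧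
      MvPolynomial.aeval x E ≠ 0 ∧ MvPolynomial.aeval x G ≠ 0 ∧
      ∀ Us : Finset (HeightOneSpectrum (𝓞 L)), (∀ v, v ∉ Us → fv v ((N * p : ℕ) : L) = 1) →
        ε * logHeight x + Real.log |((discr L : ℤ) : ℝ)| + finrank ℚ L * C <
          Sm Us (fun f => (n + 2 + e) * Real.log (⨆ j, f (x j)) -
            (∑ i, Real.log (f (∑ j, algebraMap ℚ L (H i j) * x j)) +
              Real.log (f (MvPolynomial.aeval x E)))) - (n + 1) * logHeight x := by
  classical
  have hk1 : 1 ≤ k := hk.pos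
  set G' : MvPolynomial (Fin (n + 1)) ℚ := G * E with hG'
  have hG'0 : G' ≠ 0 := mul_ne_zero hG hE0
  have hG'δ : G'.IsHomogeneous (δ + e) := hGδ.mul hE
  obtain ⟨A0, A1, A2, c, i0, i1, i2, i3, s, y1, y2, hs, hc, i10, i20, i21, i30, i31, i32, hGpl,
    hpl⟩ := exists_plane hn H hgp G' hG'0
  -- the polynomial on the plane
  set f : Fin (n + 1) → MvPolynomial (Fin 2) ℚ := fun j => MvPolynomial.C (A0 j) +
    MvPolynomial.X 0 * MvPolynomial.C (A1 j) + MvPolynomial.X 1 * MvPolynomial.C (A2 j)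
    with hf
  set H2 : MvPolynomial (Fin 2) ℚ := MvPolynomial.aeval f G' with hH2
  have hHev : ∀ (L : Type) [Field L] [Algebra ℚ L] (z : Fin 2 → L), MvPolynomial.aeval z H2 =
      MvPolynomial.aeval (plL A0 A1 A2 (z 0) (z 1)) G' := by
    intro L _ _ z
    have h1 : (MvPolynomial.aeval z).comp (MvPolynomial.aeval f) =
        MvPolynomial.aeval (R := ℚ) (plL A0 A1 A2 (z 0) (z 1)) := by
      ext j
      simp [hf, plL]
    rw [hH2, ← h1]
    rfl
  have hH0 : H2 ≠ 0 := by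
    intro h0
    apply hGpl
    have h1 := hHev ℚ ![y1, y2]
    rw [h0, map_zero] at h1
    have h4 : MvPolynomial.eval (fun j => s * pl A0 A1 A2 y1 y2 j) G' =
        s ^ (δ + e) * MvPolynomial.eval (pl A0 A1 A2 y1 y2) G' :=
      hom_eval₂ (RingHom.id ℚ) hG'δ s _
    have h5 : (fun j => algebraMap ℚ ℚ (s * pl A0 A1 A2 y1 y2 j)) =
        fun j => s * pl A0 A1 A2 y1 y2 j := by
      funext j
      simp
    have h6 : MvPolynomial.eval (pl A0 A1 A2 y1 y2) G' =
        MvPolynomial.aeval (plL A0 A1 A2 ((![y1, y2] : Fin 2 → ℚ) 0) ((![y1, y2] : Fin 2 → ℚ) 1)) G' := by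
      rw [MvPolynomial.aeval_def]
      have h7 : (pl A0 A1 A2 y1 y2 : Fin (n + 1) → ℚ) =
          plL A0 A1 A2 ((![y1, y2] : Fin 2 → ℚ) 0) ((![y1, y2] : Fin 2 → ℚ) 1) := by
        funext j
        simp [pl, plL]
      rw [← h7]
      rfl
    rw [h5, h4, h6, ← h1, mul_zero]
  have hHdeg : H2.degreeOf 0 ≤ δ + e := by
    rw [← hG'δ.totalDegree hG'0, hH2]
    refine degreeOf_subst f 0 (fun l => ?_) G'
    simp only [hf]
    refine (MvPolynomial.degreeOf_add_le _ _ _).trans (max_le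
      ((MvPolynomial.degreeOf_add_le _ _ _).trans (max_le ?_ ?_)) ?_)
    · rw [MvPolynomial.degreeOf_C]; exact Nat.zero_le _
    · refine (MvPolynomial.degreeOf_mul_le _ _ _).trans ?_
      rw [MvPolynomial.degreeOf_C, MvPolynomial.degreeOf_X]
      simp
    · refine (MvPolynomial.degreeOf_mul_le _ _ _).trans ?_
      rw [MvPolynomial.degreeOf_C, MvPolynomial.degreeOf_X]
      simp
  set HH : MvPolynomial (Fin 2) L0 := MvPolynomial.map (algebraMap ℚ L0) H2 with hHH
  have hHH0 : HH ≠ 0 := by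
    intro h
    exact hH0 (MvPolynomial.map_injective _ (algebraMap ℚ L0).injective (by
      rw [map_zero]; exact h))
  have hHHdeg : HH.degreeOf 0 ≤ δ + e := (deg_map_le _ _ _).trans hHdeg
  -- the curve
  have hcard := card_le' hk Ps hPs
  obtain ⟨R, hR, s', hRs'⟩ := exists_onC HH hHH0 (i := 1) (j := 0) (by decide) hk1
    (Ps.image fun P => qV P ((1 - X ^ k) / P) ^ 2) (by omega)
  obtain ⟨P, hP, rfl⟩ := Finset.mem_image.1 hR
  set Q : L0[X] := (1 - X ^ k) / P with hQ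
  obtain ⟨hP0, hPd⟩ := hPs P hP
  have hPQ : P * Q = 1 - X ^ k := by
    refine EuclideanDomain.mul_div_cancel' ?_ hPd
    rintro rfl
    simp at hP0
  obtain ⟨U, hU0, hrel, hV0, hdegk⟩ := exists_qU hk hPQ hP0
  set V : L0[X] := qV P Q with hV
  set f0 : L0[X] := X * V * U with hf0
  have hf0deg : 1 ≤ f0.natDegree := by
    rw [hf0, natDegree_mul (mul_ne_zero X_ne_zero hV0) hU0, natDegree_mul X_ne_zero hV0,
      natDegree_X]
    omega
  obtain ⟨N, C1, hN, hest⟩ := prox_est H E hE hE0 A0 A1 A2 c i0 i1 i2 i3 hc i30 i31 i32 hpl V U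
    hV0 hU0 hrel
  obtain ⟨C2, hfield⟩ := exists_fieldB L0 f0 hf0deg
  obtain ⟨u0, hu0⟩ := avoid' f0 _ hRs'
  refine ⟨N, hN, fun C => ?_⟩
  -- constants
  set D : ℝ := (f0.natDegree : ℝ) with hD
  have hD1 : 1 ≤ D := by rw [hD]; exact_mod_cast hf0deg
  have hDk : D ≤ k := by rw [hD]; exact_mod_cast hdegk
  have hk0 : (0 : ℝ) < k := by exact_mod_cast (by omega : 0 < k)
  have hk1R : (1 : ℝ) ≤ k := by exact_mod_cast hk1
  have hε1 : ε < 1 := by
    by_contra hcon
    push Not at hcon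
    nlinarith
  have hθ : 0 < 1 - ε := by linarith
  set γ : ℝ := (1 - ε) * k - (D - 1) with hγ
  have hγ0 : 0 < γ := by
    rw [hγ]
    nlinarith
  have hlogp : 0 < Real.log p := Real.log_pos (by exact_mod_cast hp.one_lt)
  set C3 : ℝ := (1 - ε) * k * C2 + D * (1 - ε) * C1 + D * C2 + D * (C + C1) with hC3
  obtain ⟨q, hq1, hq2⟩ : ∃ q : ℕ, u0 ≤ p ^ q ∧ C3 < γ * (q * Real.log p) := by
    have hev1 : ∀ᶠ q : ℕ in Filter.atTop, u0 ≤ p ^ q := by
      have := (tendsto_pow_atTop_atTop_of_one_lt hp.one_lt).eventually_ge_atTop u0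
      exact this
    have hev2 : ∀ᶠ q : ℕ in Filter.atTop, C3 + 1 ≤ (γ * Real.log p) * q := by
      have hpos : 0 < γ * Real.log p := by positivity
      exact (tendsto_natCast_atTop_atTop.const_mul_atTop hpos).eventually_ge_atTop _
    obtain ⟨q, h1, h2⟩ := (hev1.and hev2).exists
    refine ⟨q, h1, ?_⟩
    have e1 : γ * (q * Real.log p) = (γ * Real.log p) * q := by ring
    rw [e1]
    linarith
  have hu1 : 1 ≤ p ^ q := Nat.one_le_pow _ _ hp.pos
  obtain ⟨L, hL1, hL2, hL3, t, htu, hfin, hdisc, hht⟩ := hfield (p ^ q) hu1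
  set x : Fin (n + 1) → L := plL A0 A1 A2 (aeval t V ^ 2) (t ^ k) with hx
  have hR0t := hu0 (p ^ q) hq1 L t htu
  have hGx : MvPolynomial.aeval x G' ≠ 0 := by
    have h1 : aeval t (onC 1 0 k (V ^ 2) s' HH) =
        MvPolynomial.aeval (![aeval t V ^ 2, t ^ k] : Fin 2 → L) H2 := by
      have h1 : aeval t (onC 1 0 k (V ^ 2) s' HH) =
          (aeval t : L0[X] →ₐ[L0] L).toRingHom (onC 1 0 k (V ^ 2) s' HH) := rfl
      rw [h1, onC, hHH, MvPolynomial.aeval_def, MvPolynomial.eval₂_map, MvPolynomial.hom_eval₂,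
        MvPolynomial.aeval_def]
      congr 1
      · exact Subsingleton.elim _ _
      · funext l
        fin_cases l
        · change aeval t (V ^ 2) = aeval t V ^ 2
          rw [map_pow]
        · change aeval t (X ^ k : L0[X]) = t ^ k
          simp
    rw [h1, hHev] at hR0t
    exact hR0t
  rw [hG', map_mul] at hGx
  have hEx : MvPolynomial.aeval x E ≠ 0 := right_ne_zero_of_mul hGx
  have hest' := hest L t (p ^ q) hu1 htu x hx hEx
  -- the set of bad places
  obtain ⟨Us0, hUs0⟩ : ∃ Us0 : Finset (HeightOneSpectrum (𝓞 L)), ∀ v, v ∉ Us0 →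
      fv v ((N * p ^ q : ℕ) : L) = 1 := by
    have hfinite : {v : HeightOneSpectrum (𝓞 L) | fv v ((N * p ^ q : ℕ) : L) ≠ 1}.Finite :=
      fv_support_finite (Nat.cast_ne_zero.2 (mul_ne_zero hN (by omega)))
    refine ⟨hfinite.toFinset, fun v hv => ?_⟩
    by_contra h
    exact hv (by simpa using h)
  obtain ⟨hxne, hforms, -, -⟩ := hest' Us0 hUs0
  refine ⟨L, hL1, hL2, x, ?_, hxne, hforms, hEx, left_ne_zero_of_mul hGx, fun Us hUs => ?_⟩
  · rw [mul_comm]
    exact hfin.trans (Nat.mul_le_mul_left _ hdegk)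
  obtain ⟨-, -, q1, q2⟩ := hest' Us (by
    intro v hv
    have h1 := hUs v hv
    rw [Nat.cast_mul] at h1
    have h2 := fv_nat v N
    have h3 := fv_nat v p
    have h4 : fv v (N : L) = 1 ∧ fv v (p : L) = 1 := by
      rw [map_mul] at h1
      have ha0 := (fv v).nonneg (N : L)
      have hb0 := (fv v).nonneg (p : L)
      constructor <;> nlinarith
    rw [Nat.cast_mul, Nat.cast_pow, map_mul, map_pow, h4.1, h4.2]
    norm_num)
  set Nn : ℝ := (finrank ℚ L : ℝ) with hNn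
  have hNn0 : 0 < Nn := by
    rw [hNn]
    exact_mod_cast finrank_pos
  set Ht := logHeight₁ t with hHt
  have hHt0 : 0 ≤ Ht := zero_le_logHeight₁ _
  set ℓ : ℝ := Real.log ((p ^ q : ℕ) : ℝ) with hℓ
  have hℓ' : ℓ = q * Real.log p := by
    rw [hℓ, Nat.cast_pow, Real.log_pow]
  have htw : ∑ w : InfinitePlace L, (w.mult : ℝ) = Nn := by
    rw [hNn]
    exact_mod_cast InfinitePlace.sum_mult_eq
  -- the height of `t`
  have q3 : Nn * ℓ ≤ Nn * C2 + D * Ht := by
    have h1 : ∑ w : InfinitePlace L, (w.mult : ℝ) * Real.log (max 1 (w t)) ≤ Ht := by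
      rw [hHt, NumberField.logHeight₁_eq]
      have g1 : ∑ w : InfinitePlace L, (w.mult : ℝ) * Real.log (max 1 (w t)) =
          ∑ w : InfinitePlace L, (w.mult : ℝ) * Real.posLog (w t) := by
        refine Finset.sum_congr rfl fun w _ => ?_
        rw [Real.posLog_eq_log_max_one (apply_nonneg w t)]
      have g2 : 0 ≤ ∑ᶠ w : FinitePlace L, Real.posLog (w t) :=
        finsum_nonneg fun w => Real.posLog_nonneg
      rw [g1]
      linarith
    calc Nn * ℓ = ∑ w : InfinitePlace L, (w.mult : ℝ) * ℓ := by rw [← htw, Finset.sum_mul]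
      _ ≤ ∑ w : InfinitePlace L, (w.mult : ℝ) * (C2 + D * Real.log (max 1 (w t))) :=
          Finset.sum_le_sum fun w _ => mul_le_mul_of_nonneg_left (hht w) (Nat.cast_nonneg _)
      _ = Nn * C2 + D * ∑ w : InfinitePlace L, (w.mult : ℝ) * Real.log (max 1 (w t)) := by
          rw [← htw, Finset.sum_mul, Finset.mul_sum, ← Finset.sum_add_distrib]
          exact Finset.sum_congr rfl fun w _ => by ring
      _ ≤ _ := by
          have := mul_le_mul_of_nonneg_left h1 (by linarith : 0 ≤ D)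
          linarith
  have hdisc' : D * Real.log |((discr L : ℤ) : ℝ)| ≤ Nn * (D * C2 + (D - 1) * ℓ) := by
    have h1 := mul_le_mul_of_nonneg_left hdisc (by linarith : 0 ≤ D)
    have h2 : D * (Nn * (C2 + (D - 1) * (ℓ / D))) = Nn * (D * C2 + (D - 1) * ℓ) := by
      field_simp
    linarith
  set hgt := logHeight x with hhgt
  have q4 : (1 - ε) * (k * (D * Ht)) ≤ (1 - ε) * (D * (hgt + Nn * C1)) := by
    refine mul_le_mul_of_nonneg_left ?_ hθ.le
    have := mul_le_mul_of_nonneg_left q2 (by linarith : 0 ≤ D)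
    linarith
  have q5 : (1 - ε) * (k * (Nn * (ℓ - C2))) ≤ (1 - ε) * (k * (D * Ht)) := by
    refine mul_le_mul_of_nonneg_left ?_ hθ.le
    refine mul_le_mul_of_nonneg_left ?_ hk0.le
    linarith
  have q6 : Nn * C3 < Nn * (γ * ℓ) := by
    refine mul_lt_mul_of_pos_left ?_ hNn0
    rw [hℓ']
    exact hq2
  have q7 : D * (ε * hgt + Real.log |((discr L : ℤ) : ℝ)| + Nn * C) < D * (hgt - Nn * C1) := by
    rw [hC3, hγ] at q6
    nlinarith
  have q8 := lt_of_mul_lt_mul_left q7 (by linarith : 0 ≤ D)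
  linarith

end Pool.Agent.W231.B
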