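import Pool.Agent.W231.B.Field
import Pool.Agent.W231.B.Even
import Pool.Agent.W231.H.Cnt
import Pool.Agent.W231.V.Core2
import Pool.Agent.W231.M.Place

set_option autoImplicit false

/-!
Integral points with respect to hyperplanes: local estimates.
-/

namespace Pool.Agent.W231.B

open NumberField IsDedekindDomain Height Finset Module Polynomial Pool.Agent.W231.V
  Pool.Agent.W231.M Pool.Agent.W231.H

section local_lemmas

variable {L : Type*} [Field L] [NumberField L]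

lemma fv_isInt {y : L} (hy : IsIntegral ℤ y) (v : HeightOneSpectrum (𝓞 L)) : fv v y ≤ 1 := by
  obtain ⟨z, rfl⟩ := (IsIntegralClosure.isIntegral_iff (A := 𝓞 L)).1 hy
  have h2 : fv v (algebraMap (𝓞 L) L z) = ‖FinitePlace.embedding v (algebraMap (𝓞 L) L z)‖ := rfl
  rw [h2]
  exact FinitePlace.norm_le_one L v z

lemma fv_sum_le' (v : HeightOneSpectrum (𝓞 L)) {κ : Type*} (s : Finset κ) (f : κ → L) {M : ℝ}
    (hM : 0 ≤ M) (h : ∀ k ∈ s, fv v (f k) ≤ M) : fv v (∑ k ∈ s, f k) ≤ M := by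
  classical
  induction s using Finset.induction_on with
  | empty => simpa using hM
  | insert k s hk ih =>
    rw [sum_insert hk]
    exact (fv_na v _ _).trans (max_le (h k (mem_insert_self k s))
      (ih fun j hj => h j (mem_insert_of_mem hj)))

lemma fv_of_den {L0 : Type*} [Field L0] [NumberField L0] [Algebra L0 L]
    (v : HeightOneSpectrum (𝓞 L)) {N : ℕ} (hN : fv v (N : L) = 1) {a : L0}
    (ha : IsIntegral ℤ ((N : L0) * a)) : fv v (algebraMap L0 L a) ≤ 1 := by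
  have h1 : IsIntegral ℤ (algebraMap L0 L ((N : L0) * a)) :=
    ha.map (IsScalarTower.toAlgHom ℤ L0 L)
  have h2 := fv_isInt h1 v
  rw [map_mul, map_natCast, map_mul, hN, one_mul] at h2
  exact h2

lemma fv_of_den' {L0 : Type*} [Field L0] [NumberField L0] [Algebra L0 L]
    (v : HeightOneSpectrum (𝓞 L)) {N : ℕ} (hN : fv v (N : L) = 1) {a : L0} (h0 : a ≠ 0)
    (ha : IsIntegral ℤ ((N : L0) * a)) (ha' : IsIntegral ℤ ((N : L0) * a⁻¹)) :
    fv v (algebraMap L0 L a) = 1 := by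
  have h1 := fv_of_den v hN ha
  have h2 := fv_of_den v hN ha'
  have h3 : fv v (algebraMap L0 L a) * fv v (algebraMap L0 L a⁻¹) = 1 := by
    rw [← map_mul, ← map_mul, mul_inv_cancel₀ h0, map_one, map_one]
  have h4 := (fv v).nonneg (algebraMap L0 L a)
  have h5 := (fv v).nonneg (algebraMap L0 L a⁻¹)
  nlinarith

lemma aeval_le (v : HeightOneSpectrum (𝓞 L)) {L0 : Type*} [Field L0] [Algebra L0 L] (P : L0[X])
    (hP : ∀ n, fv v (algebraMap L0 L (P.coeff n)) ≤ 1) {t : L} (ht : fv v t ≤ 1) :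
    fv v (aeval t P) ≤ 1 := by
  rw [aeval_eq_sum_range]
  refine fv_sum_le' v _ _ zero_le_one fun n _ => ?_
  rw [Algebra.smul_def, map_mul, map_pow]
  exact mul_le_one₀ (hP n) (pow_nonneg ((fv v).nonneg _) _) (pow_le_one₀ ((fv v).nonneg _) ht)

lemma root_int (v : HeightOneSpectrum (𝓞 L)) {L0 : Type*} [Field L0] [Algebra L0 L] (f : L0[X])
    (hf : 1 ≤ f.natDegree) (hP : ∀ n, fv v (algebraMap L0 L (f.coeff n)) ≤ 1)
    (hl : fv v (algebraMap L0 L f.leadingCoeff) = 1) {t : L}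
    (ht : fv v (aeval t f) ≤ 1) : fv v t ≤ 1 := by
  by_contra hcon
  push Not at hcon
  set D := f.natDegree with hD
  have hm : (1 : ℝ) ≤ fv v t ^ (D - 1) := one_le_pow₀ hcon.le
  have h1 : algebraMap L0 L f.leadingCoeff * t ^ D =
      aeval t f + -(∑ j ∈ range D, algebraMap L0 L (f.coeff j) * t ^ j) := by
    rw [aeval_eq_sum_range, ← hD, Finset.sum_range_succ]
    simp only [Algebra.smul_def]
    rw [leadingCoeff]
    ring
  have h2 := congrArg (fv v) h1
  rw [map_mul, hl, one_mul, map_pow] at h2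
  have h3 : fv v t ^ D ≤ fv v t ^ (D - 1) := by
    rw [h2]
    refine (fv_na v _ _).trans (max_le (ht.trans hm) ?_)
    rw [map_neg_eq_map]
    refine fv_sum_le' v _ _ (by linarith) fun j hj => ?_
    rw [map_mul, map_pow]
    rw [mem_range] at hj
    calc fv v (algebraMap L0 L (f.coeff j)) * fv v t ^ j ≤ 1 * fv v t ^ (D - 1) :=
          mul_le_mul (hP j) (pow_le_pow_right₀ hcon.le (by omega))
            (pow_nonneg ((fv v).nonneg _) _) zero_le_one
      _ = _ := one_mul _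
  have h4 : fv v t ^ D = fv v t * fv v t ^ (D - 1) := by
    rw [← pow_succ', Nat.sub_add_cancel hf]
  nlinarith

lemma three_units (v : HeightOneSpectrum (𝓞 L)) {a b c : L} (ha : fv v a ≤ 1) (hb : fv v b ≤ 1)
    (hc : fv v c ≤ 1) (h : fv v (a * b * c) = 1) : fv v a = 1 ∧ fv v b = 1 ∧ fv v c = 1 := by
  rw [map_mul, map_mul] at h
  have ha0 := (fv v).nonneg a
  have hb0 := (fv v).nonneg b
  have hc0 := (fv v).nonneg c
  have hab : fv v a * fv v b ≤ 1 := mul_le_one₀ ha hb0 hb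
  have h1 : fv v c = 1 := by nlinarith
  rw [h1, mul_one] at h
  refine ⟨by nlinarith, by nlinarith, h1⟩

end local_lemmas

/-- the point of parameters `u`, `T` of the plane, over an extension -/
def plL {σ : Type*} {L : Type*} [Field L] [Algebra ℚ L] (A0 A1 A2 : σ → ℚ) (u T : L) (j : σ) : L :=
  algebraMap ℚ L (A0 j) + u * algebraMap ℚ L (A1 j) + T * algebraMap ℚ L (A2 j)

lemma form_plL {σ : Type*} [Fintype σ] {L : Type*} [Field L] [Algebra ℚ L] (l A0 A1 A2 : σ → ℚ)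
    (u T : L) : ∑ j, algebraMap ℚ L (l j) * plL A0 A1 A2 u T j =
      algebraMap ℚ L (∑ j, l j * A0 j) + u * algebraMap ℚ L (∑ j, l j * A1 j) +
        T * algebraMap ℚ L (∑ j, l j * A2 j) := by
  unfold plL
  simp only [map_sum, Finset.mul_sum, ← Finset.sum_add_distrib, map_mul]
  refine Finset.sum_congr rfl fun j _ => ?_
  ring

lemma forms {n : ℕ} (H : Fin (n + 2) → Fin (n + 1) → ℚ) (A0 A1 A2 : Fin (n + 1) → ℚ)
    (c : Fin (n + 2) → ℚ) (i0 i1 i2 : Fin (n + 2))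
    (hpl : ∀ u T : ℚ, ∑ j, H i0 j * pl A0 A1 A2 u T j = c i0 * u ∧
        ∑ j, H i1 j * pl A0 A1 A2 u T j = c i1 * (1 - T - u) ∧
        ∑ j, H i2 j * pl A0 A1 A2 u T j = c i2 * T ∧
        ∀ i, i ≠ i0 → i ≠ i1 → i ≠ i2 → ∑ j, H i j * pl A0 A1 A2 u T j = c i)
    {L : Type*} [Field L] [Algebra ℚ L] (u T : L) :
    ∑ j, algebraMap ℚ L (H i0 j) * plL A0 A1 A2 u T j = algebraMap ℚ L (c i0) * u ∧
      ∑ j, algebraMap ℚ L (H i1 j) * plL A0 A1 A2 u T j = algebraMap ℚ L (c i1) * (1 - T - u) ∧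
      ∑ j, algebraMap ℚ L (H i2 j) * plL A0 A1 A2 u T j = algebraMap ℚ L (c i2) * T ∧
      ∀ i, i ≠ i0 → i ≠ i1 → i ≠ i2 →
        ∑ j, algebraMap ℚ L (H i j) * plL A0 A1 A2 u T j = algebraMap ℚ L (c i) := by
  have hval : ∀ (i : Fin (n + 2)) (u T : ℚ), ∑ j, H i j * pl A0 A1 A2 u T j =
      ∑ j, H i j * A0 j + u * ∑ j, H i j * A1 j + T * ∑ j, H i j * A2 j := by
    intro i u T
    unfold pl
    simp only [Finset.mul_sum, ← Finset.sum_add_distrib]
    refine Finset.sum_congr rfl fun j _ => ?_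
    ring
  obtain ⟨a0, a1, a2, a3⟩ := hpl 0 0
  obtain ⟨b0, b1, b2, b3⟩ := hpl 1 0
  obtain ⟨e0, e1, e2, e3⟩ := hpl 0 1
  rw [hval] at a0 a1 a2 b0 b1 b2 e0 e1 e2
  refine ⟨?_, ?_, ?_, fun i h0 h1 h2 => ?_⟩
  · rw [form_plL]
    have k0 : ∑ j, H i0 j * A0 j = 0 := by linarith
    have k1 : ∑ j, H i0 j * A1 j = c i0 := by linarith
    have k2 : ∑ j, H i0 j * A2 j = 0 := by linarith
    rw [k0, k1, k2, map_zero]
    ring
  · rw [form_plL]
    have k0 : ∑ j, H i1 j * A0 j = c i1 := by linarith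
    have k1 : ∑ j, H i1 j * A1 j = -c i1 := by linarith
    have k2 : ∑ j, H i1 j * A2 j = -c i1 := by linarith
    rw [k0, k1, k2, map_neg]
    ring
  · rw [form_plL]
    have k0 : ∑ j, H i2 j * A0 j = 0 := by linarith
    have k1 : ∑ j, H i2 j * A1 j = 0 := by linarith
    have k2 : ∑ j, H i2 j * A2 j = c i2 := by linarith
    rw [k0, k1, k2, map_zero]
    ring
  · have a := a3 i h0 h1 h2
    have b := b3 i h0 h1 h2
    have e := e3 i h0 h1 h2
    rw [hval] at a b e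
    rw [form_plL]
    have k0 : ∑ j, H i j * A0 j = c i := by linarith
    have k1 : ∑ j, H i j * A1 j = 0 := by linarith
    have k2 : ∑ j, H i j * A2 j = 0 := by linarith
    rw [k0, k1, k2, map_zero]
    ring

end Pool.Agent.W231.B
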