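import Pool.Agent.W231.B.Est
import Pool.Agent.W231.G.Main

set_option autoImplicit false

/-!
The proximity function of the integral points.
-/

namespace Pool.Agent.W231.B

open NumberField IsDedekindDomain Height Finset Module Polynomial Pool.Agent.W231.V
  Pool.Agent.W231.M Pool.Agent.W231.H

section eval

variable {L : Type*} [Field L] {σ : Type*} [Fintype σ]

lemma monomial_le (f : AbsoluteValue L ℝ) (x : σ → L) {e : ℕ} {m : σ →₀ ℕ} (hm : m.degree = e) :
    ∏ i, f (x i) ^ m i ≤ (⨆ j, f (x j)) ^ e := by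
  have hle : ∀ j, f (x j) ≤ ⨆ j, f (x j) := fun j =>
    le_ciSup (f := fun j => f (x j)) (Set.finite_range _).bddAbove j
  have h2 : ∑ i, m i = e := by
    rw [← hm, Finsupp.degree_apply]
    exact (Finset.sum_subset (Finset.subset_univ _) fun i _ hi => by
      simpa using hi).symm
  rw [← h2, ← Finset.prod_pow_eq_pow_sum]
  exact Finset.prod_le_prod (fun i _ => pow_nonneg (f.nonneg _) _) fun i _ =>
    pow_le_pow_left₀ (f.nonneg _) (hle i) _

lemma hom_degree {R : Type*} [CommSemiring R] {E : MvPolynomial σ R} {e : ℕ}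
    (hE : E.IsHomogeneous e) {m : σ →₀ ℕ} (hm : m ∈ E.support) : m.degree = e := by
  have := hE (MvPolynomial.mem_support_iff.1 hm)
  exact (DFunLike.congr_fun (Finsupp.degree_eq_weight_one (σ := σ) (R := ℕ)) m).trans this

lemma aeval_expand [Algebra ℚ L] (E : MvPolynomial σ ℚ) (N : ℕ) (x : σ → L) :
    (N : L) * MvPolynomial.aeval x E =
      ∑ m ∈ E.support, algebraMap ℚ L (N * E.coeff m) * ∏ i, x i ^ m i := by
  rw [MvPolynomial.aeval_def, MvPolynomial.eval₂_eq', Finset.mul_sum]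
  refine Finset.sum_congr rfl fun m _ => ?_
  rw [map_mul, map_natCast]
  ring

lemma arch_eval [Algebra ℚ L] (f : AbsoluteValue L ℝ) (hf : ∀ q : ℚ, f (algebraMap ℚ L q) = |(q : ℝ)|)
    (E : MvPolynomial σ ℚ) {e : ℕ} (hE : E.IsHomogeneous e) (N : ℕ) (x : σ → L) :
    f ((N : L) * MvPolynomial.aeval x E) ≤
      (∑ m ∈ E.support, |((N * E.coeff m : ℚ) : ℝ)|) * (⨆ j, f (x j)) ^ e := by
  rw [aeval_expand, Finset.sum_mul]
  refine (f.sum_le _ _).trans (Finset.sum_le_sum fun m hm => ?_)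
  rw [map_mul, hf, map_prod]
  refine mul_le_mul_of_nonneg_left ?_ (abs_nonneg _)
  simp only [map_pow]
  exact monomial_le f x (hom_degree hE hm)

lemma fin_eval [Algebra ℚ L] [NumberField L] (v : HeightOneSpectrum (𝓞 L))
    (E : MvPolynomial σ ℚ) {e : ℕ} (hE : E.IsHomogeneous e) (N : ℕ)
    (hN : ∀ m, IsIntegral ℤ ((N : ℚ) * E.coeff m)) (x : σ → L) :
    fv v ((N : L) * MvPolynomial.aeval x E) ≤ (⨆ j, fv v (x j)) ^ e := by
  rw [aeval_expand]
  refine fv_sum_le' v _ _ (pow_nonneg (Real.iSup_nonneg fun j => (fv v).nonneg _) _) fun m hm => ?_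
  rw [map_mul, map_prod]
  have h1 : fv v (algebraMap ℚ L (N * E.coeff m)) ≤ 1 :=
    fv_isInt ((hN m).map (IsScalarTower.toAlgHom ℤ ℚ L)) v
  simp only [map_pow]
  calc fv v (algebraMap ℚ L (N * E.coeff m)) * ∏ i, fv v (x i) ^ m i
      ≤ 1 * (⨆ j, fv v (x j)) ^ e :=
        mul_le_mul h1 (monomial_le (fv v) x (hom_degree hE hm))
          (Finset.prod_nonneg fun i _ => pow_nonneg ((fv v).nonneg _) _) zero_le_one
    _ = _ := one_mul _

end eval

lemma Sm_sum {L : Type*} [Field L] [NumberField L] (U : Finset (HeightOneSpectrum (𝓞 L)))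
    {ι : Type*} (s : Finset ι) (φ : ι → AbsoluteValue L ℝ → ℝ) :
    Sm U (fun f => ∑ i ∈ s, φ i f) = ∑ i ∈ s, Sm U (φ i) := by
  unfold Sm
  rw [Finset.sum_add_distrib, Finset.sum_comm (s := s), Finset.sum_comm (s := s)]
  simp only [Finset.mul_sum]

theorem prox_est {n : ℕ} (H : Fin (n + 2) → Fin (n + 1) → ℚ) (E : MvPolynomial (Fin (n + 1)) ℚ)
    {e : ℕ} (hE : E.IsHomogeneous e) (hE0 : E ≠ 0) (A0 A1 A2 : Fin (n + 1) → ℚ)
    (c : Fin (n + 2) → ℚ) (i0 i1 i2 i3 : Fin (n + 2)) (hc : ∀ i, c i ≠ 0)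
    (h30 : i3 ≠ i0) (h31 : i3 ≠ i1) (h32 : i3 ≠ i2)
    (hpl : ∀ u T : ℚ, ∑ j, H i0 j * pl A0 A1 A2 u T j = c i0 * u ∧
        ∑ j, H i1 j * pl A0 A1 A2 u T j = c i1 * (1 - T - u) ∧
        ∑ j, H i2 j * pl A0 A1 A2 u T j = c i2 * T ∧
        ∀ i, i ≠ i0 → i ≠ i1 → i ≠ i2 → ∑ j, H i j * pl A0 A1 A2 u T j = c i)
    {L0 : Type} [Field L0] [NumberField L0] {k : ℕ} (V U : L0[X]) (hV : V ≠ 0)
    (hU : U ≠ 0) (hrel : V ^ 2 - X * U ^ 2 = 1 - X ^ k) :
    ∃ (N : ℕ) (C : ℝ), N ≠ 0 ∧ ∀ (L : Type) [Field L] [NumberField L] [Algebra L0 L] (t : L)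
      (u : ℕ), 1 ≤ u → aeval t (X * V * U) = (u : L) →
      ∀ x : Fin (n + 1) → L, x = plL A0 A1 A2 (aeval t V ^ 2) (t ^ k) →
      MvPolynomial.aeval x E ≠ 0 →
      ∀ Us : Finset (HeightOneSpectrum (𝓞 L)), (∀ v, v ∉ Us → fv v ((N * u : ℕ) : L) = 1) →
        x ≠ 0 ∧ (∀ i, ∑ j, algebraMap ℚ L (H i j) * x j ≠ 0) ∧
        (n + 2) * logHeight x - finrank ℚ L * C ≤ Sm Us (fun f => (n + 2 + e) *
          Real.log (⨆ j, f (x j)) - (∑ i, Real.log (f (∑ j, algebraMap ℚ L (H i j) * x j)) +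
            Real.log (f (MvPolynomial.aeval x E)))) ∧
        k * logHeight₁ t ≤ logHeight x + finrank ℚ L * C := by
  classical
  set f0 : L0[X] := X * V * U with hf0
  have hf0ne : f0 ≠ 0 := mul_ne_zero (mul_ne_zero X_ne_zero hV) hU
  have hf0deg : 1 ≤ f0.natDegree := by
    rw [hf0, natDegree_mul (mul_ne_zero X_ne_zero hV) hU, natDegree_mul X_ne_zero hV, natDegree_X]
    omega
  -- denominators
  set cs : Finset L0 := V.support.image V.coeff ∪ U.support.image U.coeff ∪
    f0.support.image f0.coeff ∪ (Finset.univ.image fun p : Fin (n + 2) × Fin (n + 1) =>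
      algebraMap ℚ L0 (H p.1 p.2)) ∪ (Finset.univ.image fun j => algebraMap ℚ L0 (A0 j)) ∪
    (Finset.univ.image fun j => algebraMap ℚ L0 (A1 j)) ∪
    (Finset.univ.image fun j => algebraMap ℚ L0 (A2 j)) ∪
    (Finset.univ.image fun i => algebraMap ℚ L0 (c i)) with hcs
  obtain ⟨N1, hN1, hN1'⟩ := exists_den (cs ∪ cs.image fun a => a⁻¹)
  obtain ⟨NE, hNE, hNE'⟩ := exists_den (L0 := ℚ) (E.support.image E.coeff)
  have hNEc : ∀ m, IsIntegral ℤ ((NE : ℚ) * E.coeff m) := by
    intro m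
    by_cases h : E.coeff m = 0
    · rw [h, mul_zero]; exact isIntegral_zero
    · exact hNE' _ (Finset.mem_image.2 ⟨m, MvPolynomial.mem_support_iff.2 h, rfl⟩)
  -- the integral forms for the height
  obtain ⟨N2, g2, hN2, hg2⟩ := clear (fun z : Fin 2 × Fin (n + 1) =>
    (![fun j => (c i3)⁻¹ * H i3 j, fun j => (c i2)⁻¹ * H i2 j] : Fin 2 → Fin (n + 1) → ℚ) z.1 z.2)
  obtain ⟨C2, hC2⟩ := logHeight_ge' (fun j => g2 (0, j)) (fun j => g2 (1, j)) N2 N2 hN2 hN2
  set CE : ℝ := 1 + ∑ m ∈ E.support, |((NE * E.coeff m : ℚ) : ℝ)| with hCE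
  have hCE1 : 1 ≤ CE := by
    have : 0 ≤ ∑ m ∈ E.support, |((NE * E.coeff m : ℚ) : ℝ)| :=
      Finset.sum_nonneg fun m _ => abs_nonneg _
    linarith
  refine ⟨N1 * NE, max (Real.log CE) C2, mul_ne_zero hN1 hNE,
    fun L _ _ _ t u hu htu x hx hEx Us hUs => ?_⟩
  -- good places
  have hgood : ∀ v, v ∉ Us → fv v (N1 : L) = 1 ∧ fv v (NE : L) = 1 ∧ fv v (u : L) = 1 := by
    intro v hv
    have h1 := hUs v hv
    rw [Nat.cast_mul, Nat.cast_mul] at h1
    exact three_units v (fv_nat v N1) (fv_nat v NE) (fv_nat v u) h1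
  have hint : ∀ v, v ∉ Us → ∀ a ∈ cs, fv v (algebraMap L0 L a) ≤ 1 := fun v hv a ha =>
    fv_of_den v (hgood v hv).1 (hN1' a (Finset.mem_union_left _ ha))
  have hunit : ∀ v, v ∉ Us → ∀ a ∈ cs, a ≠ 0 → fv v (algebraMap L0 L a) = 1 :=
    fun v hv a ha ha0 => fv_of_den' v (hgood v hv).1 ha0 (hN1' a (Finset.mem_union_left _ ha))
      (hN1' _ (Finset.mem_union_right _ (Finset.mem_image.2 ⟨a, ha, rfl⟩)))
  have hcoef : ∀ R : L0[X], R.support.image R.coeff ⊆ cs → ∀ v, v ∉ Us → ∀ m,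
      fv v (algebraMap L0 L (R.coeff m)) ≤ 1 := by
    intro R hR v hv m
    by_cases h : R.coeff m = 0
    · rw [h, map_zero, map_zero]; exact zero_le_one
    · exact hint v hv _ (hR (Finset.mem_image.2 ⟨m, Polynomial.mem_support_iff.2 h, rfl⟩))
  have hcV := hcoef V (by intro y hy; simp only [hcs, Finset.mem_union]; tauto)
  have hcU := hcoef U (by intro y hy; simp only [hcs, Finset.mem_union]; tauto)
  have hcf := hcoef f0 (by intro y hy; simp only [hcs, Finset.mem_union]; tauto)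
  have htow : ∀ a : ℚ, algebraMap ℚ L a = algebraMap L0 L (algebraMap ℚ L0 a) := fun a =>
    IsScalarTower.algebraMap_apply ℚ L0 L a
  have hmH : ∀ i j, algebraMap ℚ L0 (H i j) ∈ cs := by
    intro i j
    have : algebraMap ℚ L0 (H i j) ∈ Finset.univ.image fun p : Fin (n + 2) × Fin (n + 1) =>
      algebraMap ℚ L0 (H p.1 p.2) := Finset.mem_image.2 ⟨(i, j), Finset.mem_univ _, rfl⟩
    simp only [hcs, Finset.mem_union]; tauto
  have hmA0 : ∀ j, algebraMap ℚ L0 (A0 j) ∈ cs := by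
    intro j
    have : algebraMap ℚ L0 (A0 j) ∈ Finset.univ.image fun j => algebraMap ℚ L0 (A0 j) :=
      Finset.mem_image.2 ⟨j, Finset.mem_univ _, rfl⟩
    simp only [hcs, Finset.mem_union]; tauto
  have hmA1 : ∀ j, algebraMap ℚ L0 (A1 j) ∈ cs := by
    intro j
    have : algebraMap ℚ L0 (A1 j) ∈ Finset.univ.image fun j => algebraMap ℚ L0 (A1 j) :=
      Finset.mem_image.2 ⟨j, Finset.mem_univ _, rfl⟩
    simp only [hcs, Finset.mem_union]; tauto
  have hmA2 : ∀ j, algebraMap ℚ L0 (A2 j) ∈ cs := by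
    intro j
    have : algebraMap ℚ L0 (A2 j) ∈ Finset.univ.image fun j => algebraMap ℚ L0 (A2 j) :=
      Finset.mem_image.2 ⟨j, Finset.mem_univ _, rfl⟩
    simp only [hcs, Finset.mem_union]; tauto
  have hmc : ∀ i, algebraMap ℚ L0 (c i) ∈ cs := by
    intro i
    have : algebraMap ℚ L0 (c i) ∈ Finset.univ.image fun i => algebraMap ℚ L0 (c i) :=
      Finset.mem_image.2 ⟨i, Finset.mem_univ _, rfl⟩
    simp only [hcs, Finset.mem_union]; tauto
  have hcu : ∀ v, v ∉ Us → ∀ i, fv v (algebraMap ℚ L (c i)) = 1 := by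
    intro v hv i
    rw [htow]
    exact hunit v hv _ (hmc i) ((_root_.map_ne_zero _).2 (hc i))
  -- the units
  have hu0 : (u : L) ≠ 0 := Nat.cast_ne_zero.2 (by omega)
  have hprod : t * aeval t V * aeval t U = u := by
    rw [← htu, hf0, map_mul, map_mul, aeval_X]
  have hun : ∀ v, v ∉ Us → fv v t = 1 ∧ fv v (aeval t V) = 1 ∧ fv v (aeval t U) = 1 := by
    intro v hv
    have ht : fv v t ≤ 1 := by
      refine root_int v f0 hf0deg (hcf v hv) ?_ ?_
      · refine hunit v hv _ ?_ (leadingCoeff_ne_zero.2 hf0ne)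
        have : f0.leadingCoeff ∈ f0.support.image f0.coeff := Finset.mem_image.2
          ⟨f0.natDegree, Polynomial.mem_support_iff.2 (leadingCoeff_ne_zero.2 hf0ne), rfl⟩
        simp only [hcs, Finset.mem_union]; tauto
      · rw [htu]
        exact (hgood v hv).2.2.le
    refine three_units v ht (aeval_le v V (hcV v hv) ht) (aeval_le v U (hcU v hv) ht) ?_
    rw [hprod]
    exact (hgood v hv).2.2
  have ht0 : t ≠ 0 := by
    rintro rfl
    apply hu0
    rw [← hprod]
    ring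
  have hV0 : aeval t V ≠ 0 := by
    intro h
    apply hu0
    rw [← hprod, h]
    ring
  have hU0 : aeval t U ≠ 0 := by
    intro h
    apply hu0
    rw [← hprod, h]
    ring
  -- the forms
  have hrelt : aeval t V ^ 2 - t * aeval t U ^ 2 = 1 - t ^ k := by
    have := congrArg (aeval t) hrel
    simpa using this
  obtain ⟨q0, q1, q2, q3⟩ := forms H A0 A1 A2 c i0 i1 i2 hpl (aeval t V ^ 2) (t ^ k)
  rw [← hx] at q0 q1 q2
  have q3' : ∀ i, i ≠ i0 → i ≠ i1 → i ≠ i2 →
      ∑ j, algebraMap ℚ L (H i j) * x j = algebraMap ℚ L (c i) := by rw [hx]; exact q3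
  have q1' : ∑ j, algebraMap ℚ L (H i1 j) * x j =
      -(algebraMap ℚ L (c i1) * (t * aeval t U ^ 2)) := by
    rw [q1]
    linear_combination (-algebraMap ℚ L (c i1)) * hrelt
  have hcL : ∀ i, algebraMap ℚ L (c i) ≠ 0 := fun i => (_root_.map_ne_zero _).2 (hc i)
  have hform0 : ∀ i, ∑ j, algebraMap ℚ L (H i j) * x j ≠ 0 := by
    intro i
    by_cases h0 : i = i0
    · subst h0
      rw [q0]
      exact mul_ne_zero (hcL _) (pow_ne_zero _ hV0)
    by_cases h1 : i = i1
    · subst h1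
      rw [q1']
      exact neg_ne_zero.2 (mul_ne_zero (hcL _) (mul_ne_zero ht0 (pow_ne_zero _ hU0)))
    by_cases h2 : i = i2
    · subst h2
      rw [q2]
      exact mul_ne_zero (hcL _) (pow_ne_zero _ ht0)
    · rw [q3' i h0 h1 h2]
      exact hcL i
  have hform1 : ∀ i, ∀ v, v ∉ Us → fv v (∑ j, algebraMap ℚ L (H i j) * x j) = 1 := by
    intro i v hv
    obtain ⟨u1, u2, u3⟩ := hun v hv
    by_cases h0 : i = i0
    · subst h0
      rw [q0, map_mul, map_pow, hcu v hv, u2]
      norm_num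
    by_cases h1 : i = i1
    · subst h1
      rw [q1', map_neg_eq_map, map_mul, map_mul, map_pow, hcu v hv, u1, u3]
      norm_num
    by_cases h2 : i = i2
    · subst h2
      rw [q2, map_mul, map_pow, hcu v hv, u1]
      norm_num
    · rw [q3' i h0 h1 h2, hcu v hv]
  have hxne : x ≠ 0 := by
    intro h
    apply hform0 i0
    rw [h]
    simp
  obtain ⟨j0, hj0⟩ := Function.ne_iff.1 hxne
  have hj0' : x j0 ≠ 0 := hj0
  have hsup0 : ∀ f : AbsoluteValue L ℝ, 0 < ⨆ j, f (x j) := fun f => (f.pos_iff.2 hj0').trans_le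
    (le_ciSup (f := fun j => f (x j)) (Set.finite_range _).bddAbove j0)
  have hsup : ∀ v, v ∉ Us → ⨆ j, fv v (x j) = 1 := by
    intro v hv
    obtain ⟨u1, u2, u3⟩ := hun v hv
    refine le_antisymm (ciSup_le fun j => ?_) ?_
    · rw [hx]
      unfold plL
      rw [htow, htow, htow]
      refine (fv_na v _ _).trans (max_le ((fv_na v _ _).trans (max_le (hint v hv _ (hmA0 j)) ?_)) ?_)
      · rw [map_mul, map_pow, u2, one_pow, one_mul]
        exact hint v hv _ (hmA1 j)
      · rw [map_mul, map_pow, u1, one_pow, one_mul]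
        exact hint v hv _ (hmA2 j)
    · rw [← hform1 i0 v hv]
      refine fv_sum_le' v _ _ (hsup0 _).le fun j _ => ?_
      rw [map_mul, htow]
      calc fv v (algebraMap L0 L (algebraMap ℚ L0 (H i0 j))) * fv v (x j) ≤ 1 * ⨆ j, fv v (x j) :=
            mul_le_mul (hint v hv _ (hmH i0 j))
              (le_ciSup (f := fun j => fv v (x j)) (Set.finite_range _).bddAbove j)
              ((fv v).nonneg _) zero_le_one
        _ = _ := one_mul _
  have hheight : logHeight x = LamSup Us x := height_eq Us x hxne hsup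
  have htw : (totalWeight L : ℝ) = (finrank ℚ L : ℝ) := Pool.Agent.W231.G.weight_eq
  refine ⟨hxne, hform0, ?_, ?_⟩
  · -- the proximity
    have e1 : Sm Us (fun f => (n + 2 + e) * Real.log (⨆ j, f (x j)) -
        (∑ i, Real.log (f (∑ j, algebraMap ℚ L (H i j) * x j)) +
          Real.log (f (MvPolynomial.aeval x E)))) = (n + 2 + e) * LamSup Us x -
        (∑ i, Lam Us (∑ j, algebraMap ℚ L (H i j) * x j) + Lam Us (MvPolynomial.aeval x E)) := by
      rw [Sm_sub, Sm_smul, Sm_add, Sm_sum, ← LamSup_eq, ← Lam_eq]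
      rfl
    have e2 : ∀ i, Lam Us (∑ j, algebraMap ℚ L (H i j) * x j) = 0 := fun i =>
      Lam_eq_zero Us (hform0 i) fun v hv => hform1 i v hv
    have hNE0 : (NE : L) ≠ 0 := Nat.cast_ne_zero.2 hNE
    have e3 : Lam Us ((NE : L) * MvPolynomial.aeval x E) = Lam Us (MvPolynomial.aeval x E) := by
      rw [Lam_mul Us hNE0 hEx, Lam_eq_zero Us hNE0 fun v hv => (hgood v hv).2.1, zero_add]
    have e4 : Lam Us ((NE : L) * MvPolynomial.aeval x E) ≤
        finrank ℚ L * Real.log CE + e * LamSup Us x := by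
      unfold Lam LamSup
      have hne : (NE : L) * MvPolynomial.aeval x E ≠ 0 := mul_ne_zero hNE0 hEx
      have k1 : ∀ w : InfinitePlace L, Real.log (w ((NE : L) * MvPolynomial.aeval x E)) ≤
          Real.log CE + e * Real.log (⨆ j, w (x j)) := by
        intro w
        have h1 := arch_eval w.1 (fun q => by
          have h2 : w.1 (algebraMap ℚ L q) = w (algebraMap ℚ L q) := rfl
          rw [h2, eq_ratCast, InfinitePlace.map_ratCast, ← Rat.norm_cast_real, Real.norm_eq_abs])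
          E hE NE x
        have h3 : w ((NE : L) * MvPolynomial.aeval x E) ≤ CE * (⨆ j, w (x j)) ^ e := by
          refine h1.trans (mul_le_mul_of_nonneg_right ?_ (pow_nonneg (hsup0 w.1).le _))
          linarith
        have h4 := Real.log_le_log (w.pos_iff.2 hne) h3
        have h5 : 0 < ⨆ j, w (x j) := hsup0 w.1
        rwa [Real.log_mul (by linarith) (pow_pos h5 _).ne', Real.log_pow] at h4
      have k2 : ∀ v ∈ Us, Real.log (fv v ((NE : L) * MvPolynomial.aeval x E)) ≤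
          e * Real.log (⨆ j, fv v (x j)) := by
        intro v _
        have h1 := fin_eval v E hE NE hNEc x
        have h4 := Real.log_le_log ((fv v).pos_iff.2 hne) h1
        rwa [Real.log_pow] at h4
      calc _ ≤ ∑ w : InfinitePlace L, (w.mult : ℝ) * (Real.log CE + e * Real.log (⨆ j, w (x j))) +
            ∑ v ∈ Us, (e : ℝ) * Real.log (⨆ j, fv v (x j)) :=
            add_le_add (Finset.sum_le_sum fun w _ => mul_le_mul_of_nonneg_left (k1 w)
              (Nat.cast_nonneg _)) (Finset.sum_le_sum k2)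
        _ = _ := by
            rw [← htw, ← sum_mult (K := L), Finset.sum_mul, mul_add, Finset.mul_sum,
              Finset.mul_sum, ← add_assoc, ← Finset.sum_add_distrib]
            congr 1
            exact Finset.sum_congr rfl fun w _ => by ring
    rw [e1, Finset.sum_congr rfl fun i _ => e2 i, Finset.sum_const_zero, zero_add, ← e3, hheight]
    have hfr : (0 : ℝ) ≤ finrank ℚ L := Nat.cast_nonneg _
    have h6 : (finrank ℚ L : ℝ) * Real.log CE ≤ finrank ℚ L * max (Real.log CE) C2 :=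
      mul_le_mul_of_nonneg_left (le_max_left _ _) hfr
    linarith
  · -- the height
    have hgc : ∀ (l : Fin (n + 1) → ℚ) (g : Fin (n + 1) → ℤ), (∀ j, (g j : ℚ) = N2 * l j) →
        ∑ j, (g j : L) * x j = N2 * ∑ j, algebraMap ℚ L (l j) * x j := by
      intro l g h
      rw [Finset.mul_sum]
      refine Finset.sum_congr rfl fun j _ => ?_
      have h1 : (g j : L) = N2 * algebraMap ℚ L (l j) := by
        have h2 := congrArg (algebraMap ℚ L) (h j)
        rw [map_mul, map_intCast, map_intCast] at h2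
        exact h2
      rw [h1]
      ring
    have hsc : ∀ (i : Fin (n + 2)) (a : ℚ), ∑ j, algebraMap ℚ L (a * H i j) * x j =
        algebraMap ℚ L a * ∑ j, algebraMap ℚ L (H i j) * x j := by
      intro i a
      rw [Finset.mul_sum]
      refine Finset.sum_congr rfl fun j _ => ?_
      rw [map_mul]
      ring
    have hinv : ∀ i, algebraMap ℚ L (c i)⁻¹ * algebraMap ℚ L (c i) = 1 := by
      intro i
      rw [← map_mul, inv_mul_cancel₀ (hc i), map_one]
    have h1 := hC2 L x k t (by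
      rw [hgc (fun j => (c i3)⁻¹ * H i3 j) (fun j => g2 (0, j)) (fun j => hg2 (0, j)), hsc,
        q3' i3 h30 h31 h32, hinv, mul_one]) (by
      rw [hgc (fun j => (c i2)⁻¹ * H i2 j) (fun j => g2 (1, j)) (fun j => hg2 (1, j)), hsc,
        q2]
      linear_combination (N2 : L) * t ^ k * hinv i2)
    rw [htw] at h1
    have hfr : (0 : ℝ) ≤ finrank ℚ L := Nat.cast_nonneg _
    have h6 : (finrank ℚ L : ℝ) * C2 ≤ finrank ℚ L * max (Real.log CE) C2 :=
      mul_le_mul_of_nonneg_left (le_max_right _ _) hfr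
    linarith

end Pool.Agent.W231.B
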